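import Pool.Agent.Lib.MP_44c8f1_al.Basic

set_option autoImplicit false

namespace Pool.Agent.Results.MP_44c8f1_al.Complements

/-- A formation: a class of finite groups that contains the trivial group, is closed under
isomorphisms and homomorphic images, and contains `G / (N₁ ∩ N₂)` whenever it contains
`G / N₁` and `G / N₂`. -/
structure Formation where
  mem : (G : Type) → [Group G] → Prop
  finite : ∀ (G : Type) [Group G], mem G → Finite G
  trivial : mem PUnit
  image : ∀ (G K : Type) [Group G] [Group K] (f : G →* K), Function.Surjective f → mem G → mem K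
  inter : ∀ (G : Type) [Group G] [Finite G] (N₁ N₂ : Subgroup G) [N₁.Normal] [N₂.Normal],
    mem (G ⧸ N₁) → mem (G ⧸ N₂) → mem (G ⧸ (N₁ ⊓ N₂))

/-- Inclusion of formations. -/
def Formation.Sub (F E : Formation) : Prop := ∀ (G : Type) [Group G], F.mem G → E.mem G

/-- Saturated formations: `G / Φ(G) ∈ F` implies `G ∈ F` for finite `G`. -/
def Formation.Saturated (F : Formation) : Prop :=
  ∀ (G : Type) [Group G] [Finite G], F.mem (G ⧸ frattini G) → F.mem G

theorem Formation.isForm (F : Formation) : Pool.Agent.Lib.MP_44c8f1_al.IsForm F.mem where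
  fin := F.finite
  iso := fun G K _ _ ⟨e⟩ h => F.image G K e.toMonoidHom e.surjective h
  quot := fun G _ N _ h => F.image G _ (QuotientGroup.mk' N) (QuotientGroup.mk'_surjective N) h
  res := fun G _ _ N L _ _ hNL h₁ h₂ =>
    F.image _ G ((QuotientGroup.quotientMulEquivOfEq hNL).trans
      QuotientGroup.quotientBot).toMonoidHom (MulEquiv.surjective _) (F.inter G N L h₁ h₂)

theorem sat_left (H M F₁ F₂ : Formation) (hH : H.Saturated) (hM : M.Saturated)
    (hH₁ : H.Sub F₁) (h₁ : F₁.Sub M) (hmeet : ∀ (G : Type) [Group G], F₁.mem G → F₂.mem G → H.mem G)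
    (hjoin : ∀ X : Formation, F₁.Sub X → F₂.Sub X → M.Sub X) : F₁.Saturated := by
  refine Pool.Agent.Lib.MP_44c8f1_al.sat_left H.isForm hH hM F₁.isForm F₂.isForm hH₁ h₁ hmeet ?_
  intro X hX a b
  refine hjoin ⟨X, hX.fin, a _ F₁.trivial, fun G K _ _ f hf h => hX.surj f hf h, ?_⟩ a b
  intro G _ _ N₁ N₂ _ _ g₁ g₂
  exact ((Pool.Agent.Lib.MP_44c8f1_al.Res.of_quot g₁).inf hX
    (Pool.Agent.Lib.MP_44c8f1_al.Res.of_quot g₂)).quot hX le_rfl

/-- Let `H` and `M` be saturated formations and let `F₁`, `F₂` be formations with meet `H` and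
join `M`. Then `F₁` and `F₂` are saturated. -/
theorem result (H M F₁ F₂ : Formation) (hH : H.Saturated) (hM : M.Saturated)
    (hmeet : ∀ (G : Type) [Group G], H.mem G ↔ F₁.mem G ∧ F₂.mem G)
    (h₁ : F₁.Sub M) (h₂ : F₂.Sub M)
    (hjoin : ∀ X : Formation, F₁.Sub X → F₂.Sub X → M.Sub X) :
    F₁.Saturated ∧ F₂.Saturated :=
  ⟨sat_left H M F₁ F₂ hH hM (fun G _ h => ((hmeet G).1 h).1) h₁
      (fun G _ a b => (hmeet G).2 ⟨a, b⟩) hjoin,
    sat_left H M F₂ F₁ hH hM (fun G _ h => ((hmeet G).1 h).2) h₂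
      (fun G _ a b => (hmeet G).2 ⟨b, a⟩) (fun X a b => hjoin X b a)⟩

end Pool.Agent.Results.MP_44c8f1_al.Complements
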