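import Pool.Agent.Lib.MP_44c8f1_al.Expl

set_option autoImplicit false

namespace Pool.Agent.Results.MP_44c8f1_al.Explicit

open Pool.Agent.Lib.MP_44c8f1_al

/-- A formation: a class of finite groups that contains the trivial group, is closed under
isomorphisms and homomorphic images, and contains `G / (N₁ ∩ N₂)` whenever it contains
`G / N₁` and `G / N₂`. -/
structure Formation where
  mem : (G : Type) → [Group G] → Prop
  finite : ∀ (G : Type) [Group G], mem G → Finite G
  trivial : mem PUnit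
  image : ∀ (G K : Type) [Group G] [Group K] (f : G →* K), Function.Surjective f → mem G → mem K
  inter : ∀ (G : Type) [Group G] [Finite G] (N₁ N₂ : Subgroup G) [N₁.Normal] [N₂.Normal],
    mem (G ⧸ N₁) → mem (G ⧸ N₂) → mem (G ⧸ (N₁ ⊓ N₂))

/-- Inclusion of formations. -/
def Formation.Sub (F E : Formation) : Prop := ∀ (G : Type) [Group G], F.mem G → E.mem G

/-- Saturated formations: `G / Φ(G) ∈ F` implies `G ∈ F` for finite `G`. -/
def Formation.Saturated (F : Formation) : Prop :=
  ∀ (G : Type) [Group G] [Finite G], F.mem (G ⧸ frattini G) → F.mem G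

theorem Formation.isForm (F : Formation) : IsForm F.mem where
  fin := F.finite
  iso := fun G K _ _ ⟨e⟩ h => F.image G K e.toMonoidHom e.surjective h
  quot := fun G _ N _ h => F.image G _ (QuotientGroup.mk' N) (QuotientGroup.mk'_surjective N) h
  res := fun G _ _ N L _ _ hNL h₁ h₂ =>
    F.image _ G ((QuotientGroup.quotientMulEquivOfEq hNL).trans
      QuotientGroup.quotientBot).toMonoidHom (MulEquiv.surjective _) (F.inter G N L h₁ h₂)

/-- Let `H` be a saturated formation and let `F₁`, `F₂` be formations with meet `H` and join `M`.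
Then `F₁` consists of the groups in `M` all of whose epimorphic images in `F₂` lie in `H`. -/
theorem result (H M F₁ F₂ : Formation) (hH : H.Saturated)
    (hmeet : ∀ (G : Type) [Group G], H.mem G ↔ F₁.mem G ∧ F₂.mem G)
    (h₁ : F₁.Sub M) (h₂ : F₂.Sub M)
    (hjoin : ∀ X : Formation, F₁.Sub X → F₂.Sub X → M.Sub X) (G : Type) [Group G] :
    F₁.mem G ↔ M.mem G ∧
      ∀ (K : Type) [Group K] (f : G →* K), Function.Surjective f → F₂.mem K → H.mem K := by
  have _ := h₂
  refine ⟨fun h => ⟨h₁ G h, fun K _ f hf hK => (hmeet K).2 ⟨F₁.image G K f hf h, hK⟩⟩,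
    fun h => ?_⟩
  have hJ := isForm_join F₁.isForm F₂.isForm
  have a : ∀ (K : Type) [Group K], F₁.mem K → Join F₁.mem F₂.mem K := fun K _ hK =>
    ⟨K, inferInstance, F₁.finite K hK, MonoidHom.id K, ⊤, ⊥, Function.surjective_id,
      by simp, res_bot hK, res_top F₂.isForm F₂.trivial K⟩
  have b : ∀ (K : Type) [Group K], F₂.mem K → Join F₁.mem F₂.mem K := fun K _ hK =>
    ⟨K, inferInstance, F₂.finite K hK, MonoidHom.id K, ⊥, ⊤, Function.surjective_id,
      by simp, res_top F₁.isForm F₁.trivial K, res_bot hK⟩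
  refine mem_of_images H.isForm hH F₁.isForm F₂.isForm (fun K _ hK => ((hmeet K).1 hK).1)
    (fun K _ x y => (hmeet K).2 ⟨x, y⟩) _ G rfl
    (hjoin ⟨Join F₁.mem F₂.mem, hJ.fin, a _ F₁.trivial, fun G K _ _ f hf h => hJ.surj f hf h, ?_⟩
      a b G h.1) h.2
  intro G _ _ N₁ N₂ _ _ g₁ g₂
  exact ((Res.of_quot g₁).inf hJ (Res.of_quot g₂)).quot hJ le_rfl

/-- Complements over a saturated formation are unique. -/
theorem unique (H M F E F₂ : Formation) (hH : H.Saturated) (h₂ : F₂.Sub M)
    (hF : ∀ (G : Type) [Group G], H.mem G ↔ F.mem G ∧ F₂.mem G) (hFM : F.Sub M)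
    (jF : ∀ X : Formation, F.Sub X → F₂.Sub X → M.Sub X)
    (hE : ∀ (G : Type) [Group G], H.mem G ↔ E.mem G ∧ F₂.mem G) (hEM : E.Sub M)
    (jE : ∀ X : Formation, E.Sub X → F₂.Sub X → M.Sub X) (G : Type) [Group G] :
    F.mem G ↔ E.mem G :=
  (result H M F F₂ hH hF hFM h₂ jF G).trans (result H M E F₂ hH hE hEM h₂ jE G).symm

end Pool.Agent.Results.MP_44c8f1_al.Explicit
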